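import Pool.Agent.H116.HL.Fin2
import Pool.Graph.R_seed8.KLev.Arcs

/-!
# Levels of `s`-intersecting arcs: `n ^ (1 + c (log log log n) ^ 2 / (log log n) ^ 3)` vertices

`Arc`, `IsFamily`, `vertices`, `below`, `kLevel`, `complexity` and `Psi` are defined in
`KLev/Arcs.lean` (namespace `KLev.Arcs`).

The theorem improves the bound `C * n ^ (1 + 1 / (log log n) ^ 4)` of the library
(`LogLogPower.lean`); the new ingredient is the recursion of `Pool/Agent/H116/HL`: a block of
multiplicity `M` is composed from inner blocks of geometrically decreasing multiplicities at one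
fixed resolution of the slopes, see `MP_e17eac_co/LogLogCube.lean`.  The arcs are pieces of
straight lines, so they meet at most once.
-/

namespace Pool.Agent.Results.MP_b774a0_co.LogLogCube

open Filter KLev

/-- There is `c > 0` such that for every `s ≥ 1` and every constant `C` all large `n` satisfy
`Psi s n ≥ C * n ^ (1 + c (log log log n) ^ 2 / (log log n) ^ 3)`. -/
theorem result : ∃ c : ℝ, 0 < c ∧ ∀ s : ℕ, 1 ≤ s → ∀ C : ℝ, ∀ᶠ n : ℕ in atTop,
    C * (n : ℝ) ^ (1 + c * (Real.log (Real.log (Real.log n))) ^ 2 / (Real.log (Real.log n)) ^ 3) ≤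
      (Arcs.Psi s n : ℝ) := by
  obtain ⟨c, hc, h⟩ := Pool.Agent.H116.HL.finalP2
  refine ⟨c, hc, ?_⟩
  intro s hs C
  obtain ⟨a, ha⟩ := (h C).exists_forall_of_atTop
  filter_upwards [eventually_ge_atTop (2 * a + 10)] with n hn
  obtain ⟨N, E, P, hH, hN, hE⟩ := ha (n / 2) (by omega)
  have h1 := Arcs.Psi_ge hs hH n (by omega) (by omega)
  have h2 : (E : ℝ) ≤ Arcs.Psi s n := by exact_mod_cast h1
  refine le_trans (hE n ?_ ?_) h2
  · have : n / 2 ≤ n := Nat.div_le_self n 2
    exact_mod_cast this
  · have : n ≤ 8 * (n / 2) := by omega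
    exact_mod_cast this

end Pool.Agent.Results.MP_b774a0_co.LogLogCube
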